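import Mathlib

/-!
The polynomials `x ^ n - E_n(x) φ + φ ^ 2`, where `E_n(u v) = u ^ n + v ^ n` if `u + v = 1`.
-/

set_option autoImplicit false
set_option linter.all false
set_option maxHeartbeats 4000000

open Polynomial

namespace Pool.Agent.U965.J

/-- The polynomials `E_0 = 2`, `E_1 = 1`, `E_{m+2} = E_{m+1} - x E_m`. -/
noncomputable def lucas (R : Type) [CommRing R] : ℕ → R[X]
  | 0 => 2
  | 1 => 1
  | (m + 2) => lucas R (m + 1) - X * lucas R m

/-- The polynomial `x ^ n - φ E_n(x) + φ ^ 2`. -/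
noncomputable def FP {R : Type} [CommRing R] (n : ℕ) (φ : R) : R[X] :=
  X ^ n - C φ * lucas R n + C (φ ^ 2)

section ring

variable {R S : Type} [CommRing R] [CommRing S]

theorem lucas_two (m : ℕ) : lucas R (m + 2) = lucas R (m + 1) - X * lucas R m := rfl

theorem lucas_map (φ : R →+* S) (m : ℕ) : (lucas R m).map φ = lucas S m := by
  induction m using Nat.strong_induction_on with
  | _ m ih =>
  match m, ih with
  | 0, _ => show (2 : R[X]).map φ = 2; simp
  | 1, _ => show (1 : R[X]).map φ = 1; simp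
  | (m + 2), ih =>
    rw [lucas_two, lucas_two, Polynomial.map_sub, Polynomial.map_mul, map_X, ih (m + 1) (by omega),
      ih m (by omega)]

theorem lucas_eval {u v : R} (h : u + v = 1) (m : ℕ) : (lucas R m).eval (u * v) = u ^ m + v ^ m := by
  induction m using Nat.strong_induction_on with
  | _ m ih =>
  match m, ih with
  | 0, _ =>
    show (2 : R[X]).eval (u * v) = _
    rw [pow_zero, pow_zero, eval_ofNat]
    norm_num
  | 1, _ =>
    show (1 : R[X]).eval (u * v) = _
    rw [eval_one, pow_one, pow_one, h]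
  | (m + 2), ih =>
    rw [lucas_two, eval_sub, eval_mul, eval_X, ih (m + 1) (by omega), ih m (by omega)]
    have h1 : u ^ (m + 2) + v ^ (m + 2) =
      (u + v) * (u ^ (m + 1) + v ^ (m + 1)) - u * v * (u ^ m + v ^ m) := by ring
    rw [h1, h, one_mul]

theorem lucas_comp (m : ℕ) : (lucas R m).comp (X - X ^ 2) = X ^ m + (1 - X) ^ m := by
  have h1 : (lucas R m).comp (X - X ^ 2) = (lucas R[X] m).eval (X * (1 - X)) := by
    rw [← lucas_map (C : R →+* R[X]) m, eval_map, comp]
    congr 1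
    ring
  rw [h1, lucas_eval (by ring)]

theorem lucas_natDegree (m : ℕ) : 2 * (lucas R m).natDegree ≤ m := by
  induction m using Nat.strong_induction_on with
  | _ m ih =>
  match m, ih with
  | 0, _ =>
    have : (2 : R[X]) = C 2 := by rw [map_ofNat]
    show 2 * (2 : R[X]).natDegree ≤ 0
    rw [this, natDegree_C]
  | 1, _ =>
    show 2 * (1 : R[X]).natDegree ≤ 1
    rw [natDegree_one]
    omega
  | (m + 2), ih =>
    rw [lucas_two]
    have h1 := ih (m + 1) (by omega)
    have h2 := ih m (by omega)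
    have h3 := natDegree_sub_le (lucas R (m + 1)) (X * lucas R m)
    have h4 : (X * lucas R m).natDegree ≤ 1 + (lucas R m).natDegree := by
      refine natDegree_mul_le.trans ?_
      have := natDegree_X_le (R := R)
      omega
    rcases max_choice (lucas R (m + 1)).natDegree (X * lucas R m).natDegree with h | h <;>
      rw [h] at h3 <;> omega

theorem FP_map (σ : R →+* S) (n : ℕ) (φ : R) : (FP n φ).map σ = FP n (σ φ) := by
  unfold FP
  rw [Polynomial.map_add, Polynomial.map_sub, Polynomial.map_mul, Polynomial.map_pow, map_X, map_C,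
    map_C, lucas_map, map_pow]

theorem FP_eval {u v : R} (h : u + v = 1) (n : ℕ) (φ : R) :
    (FP n φ).eval (u * v) = (φ - u ^ n) * (φ - v ^ n) := by
  unfold FP
  rw [eval_add, eval_sub, eval_mul, eval_pow, eval_X, eval_C, eval_C, lucas_eval h]
  ring

theorem FP_eval' (u : R) (n : ℕ) (φ : R) :
    (FP n φ).eval (u - u ^ 2) = (φ - u ^ n) * (φ - (1 - u) ^ n) := by
  rw [← FP_eval (by ring)]
  congr 1
  ring

theorem FP_comp (n : ℕ) (φ : R) :
    (FP n φ).comp (X - X ^ 2) = (C φ - X ^ n) * (C φ - (1 - X) ^ n) := by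
  unfold FP
  rw [add_comp, sub_comp, mul_comp, pow_comp, X_comp, C_comp, C_comp, lucas_comp, C_pow]
  have : (X - X ^ 2 : R[X]) = X * (1 - X) := by ring
  rw [this, mul_pow]
  ring

theorem FP_natDegree_lt {n : ℕ} (hn : 0 < n) (φ : R) :
    (-(C φ * lucas R n) + C (φ ^ 2)).natDegree < n := by
  refine lt_of_le_of_lt (natDegree_add_le _ _) ?_
  rw [natDegree_neg, natDegree_C]
  have h1 := lucas_natDegree (R := R) n
  have h2 := natDegree_C_mul_le φ (lucas R n)
  rw [max_lt_iff]
  constructor <;> omega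

theorem FP_eq (n : ℕ) (φ : R) : FP n φ = X ^ n + (-(C φ * lucas R n) + C (φ ^ 2)) := by
  unfold FP
  ring

theorem FP_monic {n : ℕ} (hn : 0 < n) (φ : R) : (FP n φ).Monic := by
  rw [FP_eq]
  rcases subsingleton_or_nontrivial R with h | h
  · exact Subsingleton.elim _ _
  apply monic_X_pow_add
  exact degree_le_natDegree.trans_lt (by exact_mod_cast FP_natDegree_lt hn φ)

theorem FP_natDegree [Nontrivial R] {n : ℕ} (hn : 0 < n) (φ : R) : (FP n φ).natDegree = n := by
  rw [FP_eq, natDegree_add_eq_left_of_natDegree_lt, natDegree_X_pow]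
  rw [natDegree_X_pow]
  exact FP_natDegree_lt hn φ

end ring

section field

variable {κ : Type} [Field κ]

theorem sqf1 {n : ℕ} (hn : (n : κ) ≠ 0) {φ : κ} (hφ : φ ≠ 0) : (C φ - X ^ n : κ[X]).Separable := by
  have h1 := separable_X_pow_sub_C φ hn hφ
  have e : (C φ - X ^ n : κ[X]) = -(X ^ n - C φ) := by ring
  unfold Polynomial.Separable at h1 ⊢
  rw [e, derivative_neg]
  exact IsCoprime.neg_neg h1

theorem sep_comp {p : κ[X]} (hp : p.Separable) : (p.comp (1 - X)).Separable := by
  unfold Polynomial.Separable at hp ⊢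
  have h1 : IsCoprime (p.comp (1 - X)) ((derivative p).comp (1 - X)) :=
    hp.map (compRingHom (1 - X))
  rw [derivative_comp]
  have e : derivative (1 - X : κ[X]) * (derivative p).comp (1 - X) =
      -((derivative p).comp (1 - X)) := by
    rw [derivative_sub, derivative_one, derivative_X]
    ring
  rw [e]
  exact h1.neg_right

theorem sqf2 {n : ℕ} (hn : (n : κ) ≠ 0) {φ : κ} (hφ : φ ≠ 0) :
    (C φ - (1 - X) ^ n : κ[X]).Separable := by
  have h := sep_comp (sqf1 hn hφ)
  rwa [sub_comp, C_comp, pow_comp, X_comp] at h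

theorem not_cube_mul {Q G H : κ[X]} (hQ : Irreducible Q) (hG : Squarefree G) (hH : Squarefree H) :
    ¬ Q ^ 3 ∣ G * H := by
  intro h
  rw [pow_dvd_iff_le_emultiplicity, emultiplicity_mul hQ.prime] at h
  have h1 := (squarefree_iff_emultiplicity_le_one G).1 hG Q
  have h2 := (squarefree_iff_emultiplicity_le_one H).1 hH Q
  have h3 : emultiplicity Q G ≤ 1 := h1.resolve_right hQ.not_isUnit
  have h4 : emultiplicity Q H ≤ 1 := h2.resolve_right hQ.not_isUnit
  have h5 := h.trans (add_le_add h3 h4)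
  have h6 : (1 : ℕ∞) + 1 = 2 := one_add_one_eq_two
  rw [h6] at h5
  exact absurd h5 (by decide)

theorem natDegree_sub_sq : (X - X ^ 2 : κ[X]).natDegree = 2 := by
  compute_degree!

/-- The polynomial is not divisible by a cube. -/
theorem not_cube_dvd {n : ℕ} (hn : (n : κ) ≠ 0) {φ : κ} (hφ : φ ≠ 0) {P : κ[X]}
    (hP : Irreducible P) : ¬ P ^ 3 ∣ FP n φ := by
  intro h
  have h1 : (P.comp (X - X ^ 2)) ^ 3 ∣ (C φ - X ^ n) * (C φ - (1 - X) ^ n) := by
    rw [← FP_comp, ← pow_comp]
    obtain ⟨g, hg⟩ := h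
    exact ⟨g.comp (X - X ^ 2), by rw [hg, mul_comp]⟩
  have h2 : (P.comp (X - X ^ 2)).natDegree ≠ 0 := by
    rw [natDegree_comp, natDegree_sub_sq]
    have := hP.natDegree_pos
    omega
  obtain ⟨Q, hQ, hd⟩ := exists_irreducible_of_natDegree_ne_zero h2
  exact not_cube_mul hQ (sqf1 hn hφ).squarefree (sqf2 hn hφ).squarefree
    ((pow_dvd_pow_of_dvd hd 3).trans h1)

/-- a monic polynomial with as many roots as its degree -/
theorem eq_prod_of_roots {p : κ[X]} (hp : p.Monic) {S : Finset κ} (hS : ∀ a ∈ S, p.eval a = 0)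
    (hc : S.card = p.natDegree) : p = ∏ a ∈ S, (X - C a) := by
  have h1 : ∏ a ∈ S, (X - C a) ∣ p := by
    apply Finset.prod_dvd_of_coprime
    · intro a _ b _ hab
      exact isCoprime_X_sub_C_of_isUnit_sub (sub_ne_zero.2 hab).isUnit
    · intro a ha
      exact dvd_iff_isRoot.2 (hS a ha)
  refine eq_of_monic_of_dvd_of_natDegree_le (monic_prod_of_monic _ _ fun a _ => monic_X_sub_C a)
    hp h1 ?_
  rw [natDegree_prod_of_monic _ _ (fun a _ => monic_X_sub_C a)]
  simp [hc]

theorem sep_of_roots {p : κ[X]} (hp : p.Monic) {S : Finset κ} (hS : ∀ a ∈ S, p.eval a = 0)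
    (hc : S.card = p.natDegree) : p.Separable := by
  rw [eq_prod_of_roots hp hS hc]
  exact separable_prod_X_sub_C_iff'.2 fun a _ b _ h => h

variable {n : ℕ} {ζ s φ : κ}

/-- the roots -/
theorem root_th (hζ : ζ ^ n = 1) (hs : s ^ n = φ) (j : ℕ) :
    (FP n φ).eval (ζ ^ j * s - (ζ ^ j * s) ^ 2) = 0 := by
  rw [FP_eval']
  have : (ζ ^ j * s) ^ n = φ := by
    rw [mul_pow, ← pow_mul, mul_comm j n, pow_mul, hζ, one_pow, one_mul, hs]
  rw [this, sub_self, zero_mul]

theorem th_inj (hζ : IsPrimitiveRoot ζ n) (hs0 : s ≠ 0)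
    (hne : ∀ i j : ℕ, i < j → j < n → ζ ^ i * s + ζ ^ j * s ≠ 1) :
    Set.InjOn (fun j : ℕ => ζ ^ j * s - (ζ ^ j * s) ^ 2) (Finset.range n : Finset ℕ) := by
  have key : ∀ i j : ℕ, i < j → j < n →
      ζ ^ i * s - (ζ ^ i * s) ^ 2 ≠ ζ ^ j * s - (ζ ^ j * s) ^ 2 := by
    intro i j hij hj h
    have h1 : (ζ ^ i * s - ζ ^ j * s) * (1 - (ζ ^ i * s + ζ ^ j * s)) = 0 := by
      linear_combination h
    rcases mul_eq_zero.1 h1 with h2 | h2
    · have h3 : ζ ^ i = ζ ^ j := mul_right_cancel₀ hs0 (sub_eq_zero.1 h2)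
      exact hij.ne (hζ.pow_inj (hij.trans hj) hj h3)
    · exact hne i j hij hj (sub_eq_zero.1 h2).symm
  intro i hi j hj h
  have hi' : i < n := by simpa using hi
  have hj' : j < n := by simpa using hj
  rcases lt_trichotomy i j with h1 | h1 | h1
  · exact absurd h (key i j h1 hj')
  · exact h1
  · exact absurd h.symm (key j i h1 hi')

/-- the polynomial is separable if the roots are distinct -/
theorem sep_FP (hn : 0 < n) (hζ : IsPrimitiveRoot ζ n) (hs0 : s ≠ 0) (hs : s ^ n = φ)
    (hne : ∀ i j : ℕ, i < j → j < n → ζ ^ i * s + ζ ^ j * s ≠ 1) : (FP n φ).Separable := by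
  classical
  refine sep_of_roots (FP_monic hn φ)
    (S := (Finset.range n).image (fun j : ℕ => ζ ^ j * s - (ζ ^ j * s) ^ 2)) ?_ ?_
  · intro a ha
    obtain ⟨j, -, rfl⟩ := Finset.mem_image.1 ha
    exact root_th hζ.pow_eq_one hs j
  · rw [Finset.card_image_of_injOn (th_inj hζ hs0 hne), Finset.card_range, FP_natDegree hn]

/-- good reduction -/
theorem squarefree_FP (hn : 0 < n) (hζ : IsPrimitiveRoot ζ n) (hφ0 : φ ≠ 0)
    (hφ : ∀ i : ℕ, 0 < i → i < n → φ * (1 + ζ ^ i) ^ n ≠ 1) : Squarefree (FP n φ) := by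
  set E := AlgebraicClosure κ with hE
  let ι : κ →+* E := algebraMap κ E
  obtain ⟨s, hs⟩ := IsAlgClosed.exists_pow_nat_eq (ι φ) hn
  have hs0 : s ≠ 0 := by
    rintro rfl
    rw [zero_pow hn.ne'] at hs
    exact hφ0 ((_root_.map_eq_zero ι).1 hs.symm)
  have hζ' : IsPrimitiveRoot (ι ζ) n := hζ.map_of_injective ι.injective
  have h1 : (FP n (ι φ)).Separable := by
    apply sep_FP hn hζ' hs0 hs
    intro i j hij hj h
    apply hφ (j - i) (by omega) (by omega)
    apply ι.injective
    rw [map_mul, map_pow, map_add, map_pow, map_one, ← hs]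
    have e : ι ζ ^ j = ι ζ ^ i * ι ζ ^ (j - i) := by
      rw [← pow_add]
      congr 1
      omega
    rw [e] at h
    have h2 : ι ζ ^ i * (s * (1 + ι ζ ^ (j - i))) = 1 := by linear_combination h
    have h3 := congrArg (fun x => x ^ n) h2
    simp only [mul_pow, one_pow] at h3
    rw [← pow_mul, mul_comm i n, pow_mul, hζ'.pow_eq_one, one_pow, one_mul] at h3
    exact h3
  rw [← FP_map ι n φ] at h1
  exact (separable_map ι |>.1 h1).squarefree

end field

end Pool.Agent.U965.J
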