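import Pool.Agent.U965.J.A

/-!
The number of roots of the reduction.
-/

set_option autoImplicit false
set_option linter.all false
set_option maxHeartbeats 4000000

open Polynomial

namespace Pool.Agent.U965.J

section count

variable {κ : Type} [Field κ] [DecidableEq κ]

/-- The number of the indices `m < g` with `φ (1 + ζ ^ (m + 1)) ^ n = 1`. -/
def hits (g : ℕ) (ζ φ : κ) : Finset ℕ :=
  (Finset.range g).filter (fun m => φ * (1 + ζ ^ (m + 1)) ^ (2 * g + 1) = 1)

theorem count_roots {g : ℕ} {ζ φ : κ} (hζ : IsPrimitiveRoot ζ (2 * g + 1)) (hφ : φ ≠ 0)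
    (U : Finset κ) (hU : ∀ u ∈ U, u ^ (2 * g + 1) = φ) :
    U.card ≤ (U.image (fun u => u - u ^ 2)).card + (hits g ζ φ).card := by
  set n := 2 * g + 1 with hn
  set R : Finset κ := (hits g ζ φ).image (fun m => 1 - (1 + ζ ^ (m + 1))⁻¹) with hR
  have hu0 : ∀ u ∈ U, u ≠ 0 := by
    rintro u hu rfl
    have := hU 0 hu
    rw [zero_pow (by omega)] at this
    exact hφ this.symm
  -- a pair with sum one gives an index
  have key : ∀ u ∈ U, ∀ m : ℕ, m < g → u * (1 + ζ ^ (m + 1)) = 1 →
      m ∈ hits g ζ φ ∧ u = (1 + ζ ^ (m + 1))⁻¹ := by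
    intro u hu m hm h
    refine ⟨?_, eq_inv_of_mul_eq_one_left h⟩
    unfold hits
    rw [Finset.mem_filter, Finset.mem_range]
    refine ⟨hm, ?_⟩
    rw [← hU u hu, ← mul_pow, h, one_pow]
  have hinj : Set.InjOn (fun u : κ => u - u ^ 2) ((U \ R : Finset κ) : Set κ) := by
    intro u hu u' hu' h
    rw [Finset.mem_coe, Finset.mem_sdiff] at hu hu'
    by_contra hne
    have h1 : (u - u') * (1 - (u + u')) = 0 := by
      have h' : u - u ^ 2 = u' - u' ^ 2 := h
      linear_combination h'
    have h2 : u + u' = 1 := by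
      rcases mul_eq_zero.1 h1 with h3 | h3
      · exact absurd (sub_eq_zero.1 h3) hne
      · exact (sub_eq_zero.1 h3).symm
    have hn0 := hu0 u hu.1
    have hη : (u' / u) ^ n = 1 := by
      rw [div_pow, hU u' hu'.1, hU u hu.1, div_self hφ]
    obtain ⟨i, hi, hi2⟩ := hζ.eq_pow_of_pow_eq_one hη
    have hu'e : u' = u * ζ ^ i := by
      rw [hi2]
      field_simp
    have hi0 : i ≠ 0 := by
      rintro rfl
      apply hne
      rw [hu'e, pow_zero, mul_one]
    by_cases hig : i ≤ g
    · obtain ⟨h5, h6⟩ := key u hu.1 (i - 1) (by omega) (by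
        rw [show i - 1 + 1 = i by omega, mul_add, mul_one, ← hu'e, h2])
      apply hu'.2
      rw [hR, Finset.mem_image]
      refine ⟨i - 1, h5, ?_⟩
      rw [← h6, ← h2]
      ring
    · have hue : u = u' * ζ ^ (n - i) := by
        rw [hu'e, mul_assoc, ← pow_add, show i + (n - i) = n by omega, hζ.pow_eq_one, mul_one]
      obtain ⟨h5, h6⟩ := key u' hu'.1 (n - i - 1) (by omega) (by
        rw [show n - i - 1 + 1 = n - i by omega, mul_add, mul_one, ← hue, add_comm, h2])
      apply hu.2
      rw [hR, Finset.mem_image]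
      refine ⟨n - i - 1, h5, ?_⟩
      rw [← h6, ← h2]
      ring
  have c1 : U.card ≤ (U \ R).card + R.card := by
    have := Finset.card_le_card_sdiff_add_card (s := U) (t := R)
    omega
  have c2 : R.card ≤ (hits g ζ φ).card := Finset.card_image_le
  have c3 : (U \ R).card ≤ (U.image (fun u => u - u ^ 2)).card := by
    rw [← Finset.card_image_of_injOn hinj]
    exact Finset.card_le_card (Finset.image_subset_image Finset.sdiff_subset)
  omega

end count

end Pool.Agent.U965.J
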