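import Pool.Agent.U965.J.B
import Pool.Agent.R427.QC6
import Pool.Agent.Results.MP_60d5ce_nt.HyperellipticTwoAdic

/-!
The field generated by a root.
-/

set_option autoImplicit false
set_option linter.all false
set_option maxHeartbeats 4000000

open Polynomial FF
open scoped Classical IntermediateField

namespace Pool.Agent.U965.J

open Pool.Agent.W343.BSD Pool.Agent.H525R3.FFp Pool.Agent.W313.Hyp
open Pool.Agent.Results.MP_60d5ce_nt.HyperellipticTwoAdic

section gen

variable {k K L : Type} [Field k] [Field K] [Field L] [Algebra k K] [Algebra k L] [Algebra K L]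
  [IsScalarTower k K L]

theorem sum_ne_one {ζ : k} {n : ℕ} {f : K} (hf : Transcendental k f) {s : L}
    (hs : s ^ n = algebraMap K L f) (i j : ℕ) :
    algebraMap k L ζ ^ i * s + algebraMap k L ζ ^ j * s ≠ 1 := by
  intro h
  have h1 : algebraMap k L (ζ ^ i + ζ ^ j) * s = 1 := by
    rw [map_add, map_pow, map_pow, add_mul, h]
  have h0 : algebraMap k L (ζ ^ i + ζ ^ j) ≠ 0 := left_ne_zero_of_mul_eq_one h1
  have h2 : s = algebraMap k L (ζ ^ i + ζ ^ j)⁻¹ := by
    rw [map_inv₀]
    exact eq_inv_of_mul_eq_one_right h1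
  apply hf
  have h3 : f = algebraMap k K ((ζ ^ i + ζ ^ j)⁻¹ ^ n) := by
    apply (algebraMap K L).injective
    rw [← hs, h2, ← IsScalarTower.algebraMap_apply, map_pow]
  rw [h3]
  exact isAlgebraic_algebraMap _

theorem minpoly_s {n : ℕ} (hn : 0 < n) {f : K} {s : L} (hs : s ^ n = algebraMap K L f)
    (hgen : K⟮s⟯ = ⊤) (hdeg : Module.finrank K L = n) :
    FiniteDimensional K L ∧ minpoly K s = X ^ n - C f := by
  have hmon : (X ^ n - C f : K[X]).Monic := monic_X_pow_sub_C f hn.ne'
  have hroot : aeval s (X ^ n - C f) = 0 := by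
    rw [map_sub, map_pow, aeval_X, aeval_C, hs, sub_self]
  have hi : IsIntegral K s := ⟨_, hmon, hroot⟩
  have hfd : FiniteDimensional K L := fd_of_gen hi hgen
  refine ⟨hfd, (eq_of_monic_of_dvd_of_natDegree_le (minpoly.monic hi) hmon
    (minpoly.dvd K s hroot) ?_).symm⟩
  rw [natDegree_of_gen hi hgen, hdeg, natDegree_X_pow_sub_C]

/-- the minimal polynomial of `s - s ^ 2` -/
theorem isProductOf {n : ℕ} (hn : 0 < n) {ζ : k} (hζ : IsPrimitiveRoot ζ n) {f : K}
    (hf : Transcendental k f) {s : L} (hs : s ^ n = algebraMap K L f)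
    (hgen : K⟮s⟯ = ⊤) (hdeg : Module.finrank K L = n) :
    minpoly K (s - s ^ 2) = FP n f ∧
    IsProductOf (FP n f) (ι := Unit) (L := fun _ => L) (fun _ => s - s ^ 2) := by
  obtain ⟨hfd, hmin⟩ := minpoly_s hn hs hgen hdeg
  have hf0 : f ≠ 0 := by
    rintro rfl
    exact hf isAlgebraic_zero
  have hs0 : s ≠ 0 := by
    rintro rfl
    rw [zero_pow hn.ne'] at hs
    exact hf0 ((_root_.map_eq_zero (algebraMap K L)).1 hs.symm)
  have hζL : IsPrimitiveRoot (algebraMap k L ζ) n :=
    hζ.map_of_injective (algebraMap k L).injective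
  set z := algebraMap k L ζ with hz
  have hne : ∀ i j : ℕ, i < j → j < n → z ^ i * s + z ^ j * s ≠ 1 :=
    fun i j _ _ => sum_ne_one hf hs i j
  have hsepL : (FP n (algebraMap K L f)).Separable := sep_FP hn hζL hs0 hs hne
  have hsep : (FP n f).Separable := by
    rw [← FP_map (algebraMap K L) n f] at hsepL
    exact (separable_map _).1 hsepL
  have hiθ : IsIntegral K (s - s ^ 2) := IsIntegral.of_finite K _
  have haev : ∀ (P : K[X]) (x : L), aeval x (P.comp (X - X ^ 2)) = aeval (x - x ^ 2) P := by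
    intro P x
    rw [aeval_comp, map_sub, map_pow, aeval_X]
  have hdvd : minpoly K (s - s ^ 2) ∣ FP n f := by
    apply minpoly.dvd
    rw [aeval_def, ← eval_map, FP_map, FP_eval', hs, sub_self, zero_mul]
  have hrts : ∀ j : ℕ, aeval (z ^ j * s - (z ^ j * s) ^ 2) (minpoly K (s - s ^ 2)) = 0 := by
    intro j
    have h1 : (X ^ n - C f : K[X]) ∣ (minpoly K (s - s ^ 2)).comp (X - X ^ 2) := by
      rw [← hmin]
      apply minpoly.dvd
      rw [haev, minpoly.aeval]
    obtain ⟨g, hg⟩ := h1
    rw [← haev, hg, map_mul, map_sub, map_pow, aeval_X, aeval_C, mul_pow, ← pow_mul, mul_comm j n,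
      pow_mul, hζL.pow_eq_one, one_pow, one_mul, hs, sub_self, zero_mul]
  have hdeg2 : n ≤ (minpoly K (s - s ^ 2)).natDegree := by
    have h1 : ((minpoly K (s - s ^ 2)).map (algebraMap K L)).natDegree =
        (minpoly K (s - s ^ 2)).natDegree := natDegree_map _
    rw [← h1]
    have h0 : (minpoly K (s - s ^ 2)).map (algebraMap K L) ≠ 0 :=
      ((minpoly.monic hiθ).map _).ne_zero
    have h2 := card_le_degree_of_subset_roots (p := (minpoly K (s - s ^ 2)).map (algebraMap K L))
      (Z := (Finset.range n).image (fun j : ℕ => z ^ j * s - (z ^ j * s) ^ 2)) (by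
        intro a ha
        rw [Finset.mem_val] at ha
        obtain ⟨j, -, rfl⟩ := Finset.mem_image.1 ha
        rw [mem_roots h0, IsRoot.def, eval_map, ← aeval_def]
        exact hrts j)
    rwa [Finset.card_image_of_injOn (th_inj hζL hs0 hne), Finset.card_range] at h2
  have hmp : minpoly K (s - s ^ 2) = FP n f :=
    (eq_of_monic_of_dvd_of_natDegree_le (minpoly.monic hiθ) (FP_monic hn f) hdvd
      (by rw [FP_natDegree hn]; exact hdeg2)).symm
  refine ⟨hmp, FP_monic hn f, hsep, fun _ => ?_, ?_⟩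
  · rw [Field.primitive_element_iff_minpoly_natDegree_eq, hmp, FP_natDegree hn]
    exact hdeg.symm
  · rw [Fintype.prod_unique]
    exact hmp

end gen

section places

variable {k K : Type} [Field k] [Finite k] [Field K] [Algebra k K] [FF.IsFF k K]

/-- the reduction -/
theorem redPoly_FP (v : Place k K) {n : ℕ} (hn : 0 < n) {f : K} (hf : v.Reg f) :
    (∀ i, v.Reg ((FP n f).coeff i)) ∧ redPoly v (FP n f) = FP n (v.red f) := by
  set f0 : v.O := ⟨f, hf⟩ with hf0
  have h1 : (FP n f0).map v.O.subtype = FP n f := by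
    rw [FP_map]
    rfl
  have h2 : ∀ i, v.Reg ((FP n f).coeff i) := by
    intro i
    rw [← h1, coeff_map]
    exact ((FP n f0).coeff i).2
  refine ⟨h2, ?_⟩
  obtain ⟨F, hF1, hF2⟩ := exists_lift v h2
  have h3 : F = FP n f0 := by
    apply Polynomial.map_injective v.O.subtype Subtype.val_injective
    rw [hF1, h1]
  rw [← hF2, h3, FP_map]
  congr 1
  rw [v.red_of_reg hf]

theorem model_one (F : K[X]) : model F 1 0 = F := by
  unfold model
  rw [one_pow, inv_one, C_1, one_mul, one_pow, C_1, one_mul, C_0, add_zero, comp_X]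

end places

end Pool.Agent.U965.J
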